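import Pool.Agent.Helper31.Ink.Main
import Pool.Agent.Helper31.Ink.Mono
import Pool.Agent.Helper92.RB.Within
import Pool.Agent.Helper81.RP.Final

/-!
# Sustained memory of random access machines, Turing machines and nondeterministic machines
-/

namespace Pool.Agent.Helper31.SusF

open Pool.Agent.Helper65.LinSpace Pool.Agent.Helper78.Mpc Pool.Agent.Helper28.Ram
open Pool.Agent.Helper81.Sus2 (NBM Decomp)
open Pool.Agent.Helper81.RP (Ins)
open Pool.Agent.Helper81.Gen4 (Q Q_mono)
open Pool.Agent.Helper31.Gen5 (Hard)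
open Pool.Agent.Helper31.Ink (WithinX good_le nbm_hard2 ink_hard ink_hard_q)
open Pool.Agent.Helper92.RB (Within within_hard within_hard_q)

/-- **Sustained memory of random access machines and of nondeterministic machines.** -/
theorem sustained6 (c : ℕ) (hc : 0 < c) :
    (∀ (A : NBM) (E : Decomp) (L : Set (List Bool)) (C : ℝ),
      (∀ w, Q (c * w.length) (fun v => ∃ g r, A.AcceptsAt w v g r) → w ∈ L) →
      (∀ w ∈ L, Q (c * w.length) (A.Good E c C w)) → DLINSPACE L) ∧
    ∃ L : Set (List Bool), DLINSPACE L ∧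
      (∀ (A : NBM) (E : Decomp) (C : ℝ),
        Hard L c (fun w α => Q (c * w.length) fun v => ∃ g r, A.AcceptsAt w (α ++ v) g r)
          (fun w α => Q (c * w.length) fun v => A.Good E c C w (α ++ v))) ∧
      ∀ (P : List Ins) (E : Decomp) (C : ℝ),
        Hard L c (fun w α => ∃ t, Pool.Agent.Helper81.RP.AcceptsAt P w α t)
          (fun w α => Within P E c C w α) ∧
        Hard L c (fun w α => Q (c * w.length) fun v =>
            ∃ t, Pool.Agent.Helper81.RP.AcceptsAt P w (α ++ v) t)
          (fun w α => Q (c * w.length) fun v => Within P E c C w (α ++ v)) := by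
  refine ⟨(Pool.Agent.Helper81.Sus3.sustained3 c hc).1, ?_⟩
  obtain ⟨L, h1, h2, h3⟩ := nbm_hard2 Pool.Agent.Helper81.Tok3.theSim
    Pool.Agent.Helper81.Sus3.parts c (2 * c + 1) hc
  refine ⟨L, h1, fun A E C => ?_, fun P E C => ⟨within_hard hc h3 P E C,
    within_hard_q hc h2 P E C⟩⟩
  exact (h2 A E C).mono (fun _ _ h => h) fun w α h =>
    Q_mono (fun x u y _ _ _ h => good_le (by omega) h) h

/-- **Sustained memory**, also of Turing machines. -/
theorem sustained7 (c : ℕ) (hc : 0 < c) :
    (∀ (A : NBM) (E : Decomp) (L : Set (List Bool)) (C : ℝ),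
      (∀ w, Q (c * w.length) (fun v => ∃ g r, A.AcceptsAt w v g r) → w ∈ L) →
      (∀ w ∈ L, Q (c * w.length) (A.Good E c C w)) → DLINSPACE L) ∧
    ∃ L : Set (List Bool), DLINSPACE L ∧
      (∀ (A : NBM) (E : Decomp) (C : ℝ),
        Hard L c (fun w α => Q (c * w.length) fun v => ∃ g r, A.AcceptsAt w (α ++ v) g r)
          (fun w α => Q (c * w.length) fun v => A.Good E c C w (α ++ v))) ∧
      (∀ (P : List Ins) (E : Decomp) (C : ℝ),
        Hard L c (fun w α => ∃ t, Pool.Agent.Helper81.RP.AcceptsAt P w α t)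
          (fun w α => Within P E c C w α) ∧
        Hard L c (fun w α => Q (c * w.length) fun v =>
            ∃ t, Pool.Agent.Helper81.RP.AcceptsAt P w (α ++ v) t)
          (fun w α => Q (c * w.length) fun v => Within P E c C w (α ++ v))) ∧
      ∀ (k : ℕ) (M : TM k) (code : M.Sym → List Bool), Function.Injective code →
        code M.blank = [] → ∀ (E : Decomp) (C : ℝ),
        Hard L c (fun w α => ∃ t, Pool.Agent.Helper31.TMS.AcceptsAt M (w ++ α) t)
          (fun w α => WithinX M code E c C w α (w ++ α)) ∧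
        Hard L c (fun w α => Q (c * w.length) fun v =>
            ∃ t, Pool.Agent.Helper31.TMS.AcceptsAt M (w ++ (α ++ v)) t)
          (fun w α => Q (c * w.length) fun v =>
            WithinX M code E c C w (α ++ v) (w ++ (α ++ v))) := by
  refine ⟨(Pool.Agent.Helper81.Sus3.sustained3 c hc).1, ?_⟩
  obtain ⟨L, h1, h2, h3⟩ := nbm_hard2 Pool.Agent.Helper81.Tok3.theSim
    Pool.Agent.Helper81.Sus3.parts c (2 * c + 1) hc
  refine ⟨L, h1, fun A E C => ?_, fun P E C => ⟨within_hard hc h3 P E C, within_hard_q hc h2 P E C⟩,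
    fun k M code hcode hb E C => ⟨ink_hard hc h3 M hcode hb E C, ink_hard_q hc h2 M hcode hb E C⟩⟩
  exact (h2 A E C).mono (fun _ _ h => h) fun w α h =>
    Q_mono (fun x u y _ _ _ h => good_le (by omega) h) h

end Pool.Agent.Helper31.SusF
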